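import Pool.Agent.Q161.ESB.Stm5

/-! ESB-DSC (helper161): the discriminant of K and the primes with an odd valuation -/

set_option autoImplicit false
set_option linter.all false

namespace Pool.Agent.Q211.ESB

open NumberField IsDedekindDomain Finset

open Pool.Agent.Q161.ESB

open scoped Classical

variable {F K : Type} [Field F] [NumberField F] [Field K] [NumberField K] [Algebra F K]

lemma two_le {v : HeightOneSpectrum (𝓞 F)} {s : K} {c : F} (hc : c ≠ 0)
    (hs : s ^ 2 = algebraMap F K c) (hv : OddAt v c) (P : Ideal (𝓞 K)) (hP : P.IsMaximal)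
    (hPl : P.LiesOver v.asIdeal) : 2 ≤ P.ramificationIdx (𝓞 F) := by
  have hP0 : P ≠ ⊥ := by
    rintro rfl
    apply v.ne_bot
    rw [hPl.over]
    exact Ideal.under_bot _ _
  let w : HeightOneSpectrum (𝓞 K) := ⟨P, hP.isPrime, hP0⟩
  have : w.asIdeal.LiesOver v.asIdeal := hPl
  have h1 := HeightOneSpectrum.valuation_liesOver K v w c
  obtain ⟨k, hk⟩ := hv
  have he1 : v.asIdeal.ramificationIdx' w.asIdeal = P.ramificationIdx (𝓞 F) :=
    Ideal.ramificationIdx'_eq_ramificationIdx v.asIdeal w.asIdeal v.ne_bot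
  have he0 : v.asIdeal.ramificationIdx' w.asIdeal ≠ 0 :=
    Ideal.IsDedekindDomain.ramificationIdx'_ne_zero_of_liesOver w.asIdeal v.ne_bot
  rw [he1] at he0 h1
  set e := P.ramificationIdx (𝓞 F) with he
  have hs1 : s ≠ 0 := by
    rintro rfl
    rw [zero_pow two_ne_zero] at hs
    exact hc ((FaithfulSMul.algebraMap_eq_zero_iff F K).1 hs.symm)
  have hs0 : w.valuation K s ≠ 0 := (Valuation.ne_zero_iff _).2 hs1
  obtain ⟨m, hm⟩ : ∃ m : ℤ, w.valuation K s = WithZero.exp m :=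
    ⟨WithZero.log (w.valuation K s), (WithZero.exp_log hs0).symm⟩
  rw [hk, ← hs, map_pow, hm, ← WithZero.exp_nsmul, ← WithZero.exp_nsmul, WithZero.exp_inj] at h1
  simp only [nsmul_eq_mul] at h1
  rcases Nat.lt_or_ge e 2 with h2 | h2
  · interval_cases e
    · exact absurd rfl he0
    · push_cast at h1
      omega
  · exact h2

lemma map_dvd {v : HeightOneSpectrum (𝓞 F)} {s : K} {c : F} (hc : c ≠ 0)
    (hs : s ^ 2 = algebraMap F K c) (hv : OddAt v c) :
    v.asIdeal.map (algebraMap (𝓞 F) (𝓞 K)) ∣ differentIdeal (𝓞 F) (𝓞 K) ^ 2 := by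
  have hvm : v.asIdeal.IsMaximal := v.isMaximal
  have hfac := Ideal.map_algebraMap_eq_finsetProd_pow (R := 𝓞 K) (p := v.asIdeal) v.ne_bot
  rw [hfac]
  refine Finset.prod_dvd_of_coprime ?_ ?_
  · intro P hP Q hQ hPQ
    have hP' : P ∈ v.asIdeal.primesOver (𝓞 K) := by simpa using hP
    have hQ' : Q ∈ v.asIdeal.primesOver (𝓞 K) := by simpa using hQ
    have := hP'.1
    have := hP'.2
    have := hQ'.1
    have := hQ'.2
    have m1 : P.IsMaximal := Ideal.IsMaximal.of_liesOver_isMaximal P v.asIdeal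
    have m2 : Q.IsMaximal := Ideal.IsMaximal.of_liesOver_isMaximal Q v.asIdeal
    exact ((Ideal.isCoprime_iff_sup_eq.2 (m1.coprime_of_ne m2 hPQ)).pow)
  · intro P hP
    have hP' : P ∈ v.asIdeal.primesOver (𝓞 K) := by simpa using hP
    have := hP'.1
    have hl := hP'.2
    have m1 : P.IsMaximal := Ideal.IsMaximal.of_liesOver_isMaximal P v.asIdeal
    have h2 := two_le hc hs hv P m1 hl
    set e := P.ramificationIdx (𝓞 F) with he
    have h3 : P ^ e ∣ v.asIdeal.map (algebraMap (𝓞 F) (𝓞 K)) := by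
      rw [hfac]
      exact Finset.dvd_prod_of_mem (fun P : Ideal (𝓞 K) => P ^ P.ramificationIdx (𝓞 F)) hP
    have h4 := pow_sub_one_dvd_differentIdeal (𝓞 F) P e v.ne_bot h3
    refine (pow_dvd_pow P (show e ≤ (e - 1) * 2 by omega)).trans ?_
    rw [pow_mul]
    exact pow_dvd_pow_of_dvd h4 2

theorem dsc : S_DSC := by
  intro F K _ _ _ _ _ m hm hdeg A hA
  have h1 : (∏ v ∈ A, v.asIdeal.map (algebraMap (𝓞 F) (𝓞 K))) ∣
      differentIdeal (𝓞 F) (𝓞 K) ^ 2 := by
    refine Finset.prod_dvd_of_coprime ?_ ?_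
    · intro v _ w _ hvw
      have : IsCoprime v.asIdeal w.asIdeal := by
        rw [Ideal.isCoprime_iff_sup_eq]
        exact v.isMaximal.coprime_of_ne w.isMaximal fun h => hvw (HeightOneSpectrum.ext h)
      exact this.map (Ideal.mapHom (algebraMap (𝓞 F) (𝓞 K)))
    · intro v hv
      obtain ⟨s, c, hc, hs, ho⟩ := hA v hv
      exact map_dvd hc hs ho
  have h2 : Ideal.absNorm (∏ v ∈ A, v.asIdeal.map (algebraMap (𝓞 F) (𝓞 K))) =
      (∏ v ∈ A, Ideal.absNorm v.asIdeal) ^ 2 ^ m := by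
    have e2 : Module.finrank (𝓞 F) (𝓞 K) = 2 ^ m := by
      rw [← hdeg]
      exact (IsFractionRing.finrank_eq (𝓞 F) F (𝓞 K) K).symm
    rw [map_prod, ← Finset.prod_pow]
    refine Finset.prod_congr rfl fun v _ => ?_
    rw [Ideal.absNorm_algebraMap, e2]
  have h3 := Ideal.absNorm_dvd_absNorm_of_le (Ideal.dvd_iff_le.1 h1)
  rw [h2, map_pow] at h3
  have h4 : (∏ v ∈ A, Ideal.absNorm v.asIdeal) ^ 2 ^ (m - 1) ∣
      Ideal.absNorm (differentIdeal (𝓞 F) (𝓞 K)) := by
    have e : 2 ^ m = 2 ^ (m - 1) * 2 := by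
      rw [← pow_succ]
      congr 1
      omega
    rw [e, pow_mul] at h3
    exact (Nat.pow_dvd_pow_iff two_ne_zero).1 h3
  have h5 := natAbs_discr_eq_absNorm_differentIdeal_mul_natAbs_discr_pow F (𝓞 F) K (𝓞 K)
  have h6 : (discr F).natAbs ≠ 0 := Int.natAbs_ne_zero.2 (discr_ne_zero F)
  have h7 : Ideal.absNorm (differentIdeal (𝓞 F) (𝓞 K)) ≠ 0 := by
    rw [Ne, Ideal.absNorm_eq_zero_iff]
    exact differentIdeal_ne_bot
  rw [h5]
  refine (Nat.le_of_dvd (Nat.pos_of_ne_zero h7) h4).trans ?_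
  exact Nat.le_mul_of_pos_right _ (pow_pos (Nat.pos_of_ne_zero h6) _)

end Pool.Agent.Q211.ESB
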