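import Pool.Agent.Q161.ESB.Stm4

/-! ESB-ISO (helper161): K is determined by the subgroup of the classes which become squares -/

set_option autoImplicit false
set_option linter.all false

namespace Pool.Agent.Q211.ESB

open NumberField IsDedekindDomain Finset

open Pool.Agent.Q161.ESB

variable {F K : Type} [Field F] [NumberField F] [Field K] [NumberField K] [Algebra F K]

/-- every element is a sum of common eigenvectors -/
lemma eig (h2 : ∀ σ : K ≃ₐ[F] K, σ * σ = 1) (G : Finset (K ≃ₐ[F] K)) (x : K) :
    x ∈ AddSubgroup.closure {y : K | ∀ τ ∈ G, τ y = y ∨ τ y = -y} := by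
  classical
  have hcomm : ∀ σ τ : K ≃ₐ[F] K, σ * τ = τ * σ := by
    intro σ τ
    have h := h2 (σ * τ)
    calc σ * τ = σ * (σ * τ * (σ * τ)) * τ := by rw [h]; simp
      _ = (σ * σ) * τ * σ * (τ * τ) := by simp only [mul_assoc]
      _ = τ * σ := by rw [h2 σ, h2 τ]; simp
  induction G using Finset.induction_on with
  | empty => exact AddSubgroup.subset_closure (by simp)
  | insert ρ G hρ ih =>
    refine (AddSubgroup.closure_le _).2 ?_ ih
    intro y hy
    have hρρ : ρ (ρ y) = y := by
      have := congrArg (fun σ : K ≃ₐ[F] K => σ y) (h2 ρ)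
      simpa using this
    have e : y = (y + ρ y) / 2 + (y - ρ y) / 2 := by ring
    rw [SetLike.mem_coe, e]
    refine add_mem (AddSubgroup.subset_closure ?_) (AddSubgroup.subset_closure ?_)
    · intro τ hτ
      rcases Finset.mem_insert.1 hτ with rfl | hτ
      · left
        rw [map_div₀, map_add, hρρ, map_ofNat, add_comm]
      · have h1 : τ (ρ y) = ρ (τ y) := by
          have := congrArg (fun σ : K ≃ₐ[F] K => σ y) (hcomm τ ρ)
          simpa using this
        rcases hy τ hτ with h | h
        · left
          rw [map_div₀, map_add, h1, h, map_ofNat]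
        · right
          rw [map_div₀, map_add, h1, h, map_neg, map_ofNat]
          ring
    · intro τ hτ
      rcases Finset.mem_insert.1 hτ with rfl | hτ
      · right
        rw [map_div₀, map_sub, hρρ, map_ofNat]
        ring
      · have h1 : τ (ρ y) = ρ (τ y) := by
          have := congrArg (fun σ : K ≃ₐ[F] K => σ y) (hcomm τ ρ)
          simpa using this
        rcases hy τ hτ with h | h
        · left
          rw [map_div₀, map_sub, h1, h, map_ofNat]
        · right
          rw [map_div₀, map_sub, h1, h, map_neg, map_ofNat]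
          ring

/-- the square roots generate -/
lemma gen {m : ℕ} (h : El F K m) {b : Fin m → F} (hb : Bas K b) (s : Fin m → K)
    (hs : ∀ j, s j ^ 2 = algebraMap F K (b j)) :
    IntermediateField.adjoin F (Set.range s) = ⊤ := by
  classical
  have := h.gal
  have : FiniteDimensional F K := Module.Finite.of_restrictScalars_finite ℚ F K
  rw [eq_top_iff]
  intro x _
  have hx := eig h.two (Finset.univ : Finset (K ≃ₐ[F] K)) x
  refine (AddSubgroup.closure_le (IntermediateField.adjoin F (Set.range s)).toSubfield.toSubring.toAddSubgroup).2 ?_ hx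
  intro y hy
  change y ∈ IntermediateField.adjoin F (Set.range s)
  rcases eq_or_ne y 0 with rfl | hy0
  · exact zero_mem _
  have hfix : y ^ 2 ∈ IntermediateField.fixedField (⊤ : Subgroup (K ≃ₐ[F] K)) := by
    rintro ⟨τ, -⟩
    change τ (y ^ 2) = y ^ 2
    rw [map_pow]
    rcases hy τ (Finset.mem_univ _) with h | h
    · rw [h]
    · rw [h, neg_sq]
  have htop : IntermediateField.fixedField (⊤ : Subgroup (K ≃ₐ[F] K)) = ⊥ := by
    exact ((IsGalois.tfae (F := F) (E := K)).out 0 1).1 h.gal
  rw [htop, IntermediateField.mem_bot] at hfix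
  obtain ⟨c, hc⟩ := hfix
  obtain ⟨S, t, hct⟩ := hb.all y c hy0 hc.symm
  have e : (y - (∏ j ∈ S, s j) * algebraMap F K t) * (y + (∏ j ∈ S, s j) * algebraMap F K t) = 0 := by
    have : y ^ 2 = ((∏ j ∈ S, s j) * algebraMap F K t) ^ 2 := by
      rw [← hc, hct, map_mul, map_prod, map_pow, mul_pow, ← Finset.prod_pow]
      congr 1
      exact Finset.prod_congr rfl fun j _ => (hs j).symm
    linear_combination this
  have hm : (∏ j ∈ S, s j) * algebraMap F K t ∈ IntermediateField.adjoin F (Set.range s) := by
    refine mul_mem (prod_mem fun j _ => ?_) (IntermediateField.algebraMap_mem _ t)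
    exact IntermediateField.subset_adjoin F _ ⟨j, rfl⟩
  rcases mul_eq_zero.1 e with h | h
  · rw [sub_eq_zero.1 h]
    exact hm
  · rw [eq_neg_of_add_eq_zero_left h]
    exact neg_mem hm

theorem iso : S_ISO := by
  intro F K K' _ _ _ _ _ _ _ _ m hK hK' b b' hb hb' hsub
  classical
  have : FiniteDimensional F K := Module.Finite.of_restrictScalars_finite ℚ F K
  have : FiniteDimensional F K' := Module.Finite.of_restrictScalars_finite ℚ F K'
  choose s hs using hb.sq
  choose s' hs' using hb'.sq
  have hgen := gen hK hb s hs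
  -- the b j are squares in K'
  have hr : ∀ j, ∃ r : K', r ^ 2 = algebraMap F K' (b j) := by
    intro j
    obtain ⟨S, t, ht⟩ := hsub j
    have h0 : ∏ i ∈ S, s' i ≠ 0 := by
      refine Finset.prod_ne_zero_iff.2 fun i _ h0 => hb'.ind.ne i ?_
      have := hs' i
      rw [h0, zero_pow two_ne_zero] at this
      exact (FaithfulSMul.algebraMap_eq_zero_iff F K').1 this.symm
    refine ⟨algebraMap F K' t / ∏ i ∈ S, s' i, ?_⟩
    have e1 : (∏ i ∈ S, s' i) ^ 2 = algebraMap F K' (∏ i ∈ S, b' i) := by
      rw [map_prod, ← Finset.prod_pow]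
      exact Finset.prod_congr rfl fun i _ => hs' i
    rw [div_pow, div_eq_iff (pow_ne_zero 2 h0), e1, ← map_mul, ht, sq, map_mul]
  have hemb : Nonempty (K →ₐ[F] K') := by
    refine IntermediateField.nonempty_algHom_of_adjoin_splits ?_ hgen
    rintro _ ⟨j, rfl⟩
    refine ⟨Algebra.IsIntegral.isIntegral _, ?_⟩
    obtain ⟨r, hr⟩ := hr j
    have hdvd : minpoly F (s j) ∣ Polynomial.X ^ 2 - Polynomial.C (b j) := by
      refine minpoly.dvd F (s j) ?_
      simp [hs j]
    have hne : (Polynomial.X ^ 2 - Polynomial.C (b j)).map (algebraMap F K') ≠ 0 := by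
      rw [Ne, Polynomial.map_eq_zero]
      exact (Polynomial.monic_X_pow_sub_C (b j) two_ne_zero).ne_zero
    refine Polynomial.Splits.of_dvd ?_ hne (Polynomial.map_dvd _ hdvd)
    have e : (Polynomial.X ^ 2 - Polynomial.C (b j)).map (algebraMap F K') =
        (Polynomial.X - Polynomial.C r) * (Polynomial.X - Polynomial.C (-r)) := by
      rw [Polynomial.map_sub, Polynomial.map_pow, Polynomial.map_X, Polynomial.map_C, ← hr,
        map_pow, map_neg]
      ring
    rw [e]
    exact (Polynomial.Splits.X_sub_C r).mul (Polynomial.Splits.X_sub_C (-r))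
  obtain ⟨f⟩ := hemb
  have hinj : Function.Injective f := f.toRingHom.injective
  have hfr : Module.finrank F K = Module.finrank F K' := by rw [hK.deg, hK'.deg]
  have hbij : Function.Bijective f :=
    ⟨hinj, (LinearMap.injective_iff_surjective_of_finrank_eq_finrank hfr (f := f.toLinearMap)).1 hinj⟩
  exact ⟨AlgEquiv.ofBijective f hbij⟩

end Pool.Agent.Q211.ESB
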