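import Pool.Agent.Q237.ESN.CntB

/-!
# Project ESB, job LOWA: counting the squarefree principal ideals without small primes
-/

set_option autoImplicit false

namespace Pool.Agent.Q211.ESB.Lw

open NumberField Finset Filter Topology IsDedekindDomain Pool.Agent.Q237.ESN

open scoped Classical

variable (F : Type) [Field F] [NumberField F]

/-- the ideals of norm at most `x` in the class `C` which are prime to `P` -/
noncomputable def Qf (P : Finset (HeightOneSpectrum (𝓞 F))) (C : ClassGroup (𝓞 F)) (x : ℝ) :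
    Finset (Ideal (𝓞 F)) :=
  (ids F x).filter fun I => (∃ J : nonZeroDivisors (Ideal (𝓞 F)), (J : Ideal (𝓞 F)) = I ∧ ClassGroup.mk0 J = C) ∧
    ∀ v ∈ P, ¬ v.asIdeal ∣ I

variable {F}

lemma mem_Qf {P : Finset (HeightOneSpectrum (𝓞 F))} {C : ClassGroup (𝓞 F)} {x : ℝ} {I : Ideal (𝓞 F)} :
    I ∈ Qf F P C x ↔ (I ≠ ⊥ ∧ ((Ideal.absNorm I : ℕ) : ℝ) ≤ x) ∧
      (∃ J : nonZeroDivisors (Ideal (𝓞 F)), (J : Ideal (𝓞 F)) = I ∧ ClassGroup.mk0 J = C) ∧
      ∀ v ∈ P, ¬ v.asIdeal ∣ I := by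
  unfold Qf
  rw [mem_filter, mem_ids]

lemma card_empty (C : ClassGroup (𝓞 F)) (s : ℝ) :
    Nat.card {I : nonZeroDivisors (Ideal (𝓞 F)) //
      ((Ideal.absNorm (I : Ideal (𝓞 F)) : ℕ) : ℝ) ≤ s ∧ ClassGroup.mk0 I = C} = (Qf F ∅ C s).card := by
  rw [← Fintype.card_coe, ← Nat.card_eq_fintype_card]
  refine Nat.card_congr (Equiv.ofBijective (fun I => ⟨I.1.1, mem_Qf.2 ⟨⟨nonZeroDivisors.ne_zero I.1.2, I.2.1⟩,
    ⟨I.1, rfl, I.2.2⟩, fun v hv => absurd hv (Finset.notMem_empty v)⟩⟩) ⟨?_, ?_⟩)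
  · intro I J h
    have h5 : I.1.1 = J.1.1 := congrArg (fun z => z.1) h
    exact Subtype.ext (Subtype.ext h5)
  · rintro ⟨I, hI⟩
    obtain ⟨h1, ⟨J, hJ, hC⟩, -⟩ := mem_Qf.1 hI
    exact ⟨⟨J, by rw [hJ]; exact h1.2, hC⟩, Subtype.ext hJ⟩

/-- the ideals which are divisible by `B` -/
lemma card_dvd (P : Finset (HeightOneSpectrum (𝓞 F))) (C : ClassGroup (𝓞 F)) (x : ℝ)
    (B : nonZeroDivisors (Ideal (𝓞 F))) (hB : ∀ v ∈ P, ¬ v.asIdeal ∣ (B : Ideal (𝓞 F))) :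
    ((Qf F P C x).filter fun I => (B : Ideal (𝓞 F)) ∣ I).card =
      (Qf F P (C * (ClassGroup.mk0 B)⁻¹) (x / ((Ideal.absNorm (B : Ideal (𝓞 F)) : ℕ) : ℝ))).card := by
  have hB0 : (B : Ideal (𝓞 F)) ≠ ⊥ := nonZeroDivisors.ne_zero B.2
  have hN := one_le_nm hB0
  have h : (Qf F P C x).filter (fun I => (B : Ideal (𝓞 F)) ∣ I) =
      (Qf F P (C * (ClassGroup.mk0 B)⁻¹) (x / ((Ideal.absNorm (B : Ideal (𝓞 F)) : ℕ) : ℝ))).image
        fun J => (B : Ideal (𝓞 F)) * J := by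
    ext I
    rw [mem_filter, mem_image, mem_Qf]
    constructor
    · rintro ⟨⟨⟨h1, h2⟩, ⟨K, hK, hC⟩, h3⟩, J, rfl⟩
      have hJ0 : J ≠ ⊥ := by
        rintro rfl
        exact h1 (by simp)
      refine ⟨J, mem_Qf.2 ⟨⟨hJ0, ?_⟩, ⟨⟨J, mem_nonZeroDivisors_of_ne_zero hJ0⟩, rfl, ?_⟩, ?_⟩, rfl⟩
      · rw [le_div_iff₀ (by linarith), mul_comm, ← Nat.cast_mul, ← map_mul]
        exact h2
      · rw [eq_mul_inv_iff_mul_eq, ← map_mul, ← hC]
        congr 1
        apply Subtype.ext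
        rw [hK]
        exact mul_comm _ _
      · intro v hv hvJ
        exact h3 v hv (hvJ.trans (dvd_mul_left _ _))
    · rintro ⟨J, hJ, rfl⟩
      obtain ⟨⟨h1, h2⟩, ⟨K, hK, hC⟩, h3⟩ := mem_Qf.1 hJ
      refine ⟨⟨⟨mul_ne_zero hB0 h1, ?_⟩, ⟨B * K, ?_, ?_⟩, ?_⟩, dvd_mul_right _ _⟩
      · rw [map_mul, Nat.cast_mul, mul_comm]
        exact (le_div_iff₀ (by linarith)).1 h2
      · rw [← hK]
        rfl
      · rw [map_mul, hC, mul_comm C, mul_inv_cancel_left]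
      · intro v hv hvBJ
        rcases v.prime.dvd_or_dvd hvBJ with h4 | h4
        · exact hB v hv h4
        · exact h3 v hv h4
  rw [h, card_image_of_injective _ (mul_right_injective₀ hB0)]

/-- the density of the ideals of a class -/
theorem exists_L (F : Type) [Field F] [NumberField F] : ∃ L : ℝ, 0 < L ∧ ∀ C : ClassGroup (𝓞 F),
    Tendsto (fun x : ℝ => ((Qf F ∅ C x).card : ℝ) / x) atTop (𝓝 L) := by
  refine ⟨(2 ^ InfinitePlace.nrRealPlaces F * (2 * Real.pi) ^ InfinitePlace.nrComplexPlaces F *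
    Units.regulator F) / (Units.torsionOrder F * Real.sqrt |(discr F : ℝ)|), ?_, fun C => ?_⟩
  · have h1 := Units.regulator_pos F
    have h2 : 0 < Units.torsionOrder F := Units.torsionOrder_pos F
    have h3 : (discr F : ℝ) ≠ 0 := by exact_mod_cast discr_ne_zero F
    have h4 : 0 < |(discr F : ℝ)| := abs_pos.2 h3
    positivity
  · have h := Ideal.tendsto_norm_le_and_mk_eq_div_atTop F C
    refine h.congr fun x => ?_
    rw [card_empty]

lemma not_dvd_of_ne {v w : HeightOneSpectrum (𝓞 F)} (h : v ≠ w) : ¬ v.asIdeal ∣ w.asIdeal := by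
  intro h1
  exact h (HeightOneSpectrum.ext (w.isMaximal.eq_of_le v.isPrime.ne_top (Ideal.dvd_iff_le.1 h1)).symm)

/-- the density of the ideals of a class which are prime to `P` -/
theorem tends {L : ℝ} (hL : ∀ C : ClassGroup (𝓞 F), Tendsto (fun x : ℝ => ((Qf F ∅ C x).card : ℝ) / x) atTop (𝓝 L))
    (P : Finset (HeightOneSpectrum (𝓞 F))) : ∀ C : ClassGroup (𝓞 F),
    Tendsto (fun x : ℝ => ((Qf F P C x).card : ℝ) / x) atTop
      (𝓝 (L * ∏ v ∈ P, (1 - 1 / ((Ideal.absNorm v.asIdeal : ℕ) : ℝ)))) := by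
  induction P using Finset.induction_on with
  | empty =>
    intro C
    simpa using hL C
  | insert w P hw ih =>
    intro C
    set B : nonZeroDivisors (Ideal (𝓞 F)) := ⟨w.asIdeal, mem_nonZeroDivisors_of_ne_zero w.ne_bot⟩ with hB
    set N : ℝ := ((Ideal.absNorm w.asIdeal : ℕ) : ℝ) with hN
    have hN1 : 1 ≤ N := one_le_nm w.ne_bot
    have h1 := card_dvd P C (B := B)
    have h2 : ∀ x : ℝ, ((Qf F (insert w P) C x).card : ℝ) =
        ((Qf F P C x).card : ℝ) - ((Qf F P (C * (ClassGroup.mk0 B)⁻¹) (x / N)).card : ℝ) := by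
      intro x
      have h3 := card_dvd P C x B (fun v hv => not_dvd_of_ne (by rintro rfl; exact hw hv))
      have h4 := Finset.card_filter_add_card_filter_not (s := Qf F P C x) (fun I => w.asIdeal ∣ I)
      have h5 : (Qf F P C x).filter (fun I => ¬ w.asIdeal ∣ I) = Qf F (insert w P) C x := by
        ext I
        rw [mem_filter, mem_Qf, mem_Qf]
        constructor
        · rintro ⟨⟨a, b, c⟩, d⟩
          refine ⟨a, b, fun v hv => ?_⟩
          rcases mem_insert.1 hv with rfl | hv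
          · exact d
          · exact c v hv
        · rintro ⟨a, b, c⟩
          exact ⟨⟨a, b, fun v hv => c v (mem_insert_of_mem hv)⟩, c w (mem_insert_self _ _)⟩
      rw [h5] at h4
      have h6 : ((Qf F P C x).filter (fun I => w.asIdeal ∣ I)).card =
          (Qf F P (C * (ClassGroup.mk0 B)⁻¹) (x / N)).card := h3
      rw [h6] at h4
      have h7 : ((Qf F P (C * (ClassGroup.mk0 B)⁻¹) (x / N)).card : ℝ) + ((Qf F (insert w P) C x).card : ℝ) =
          ((Qf F P C x).card : ℝ) := by exact_mod_cast h4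
      linarith
    have h3 : Tendsto (fun x : ℝ => ((Qf F P (C * (ClassGroup.mk0 B)⁻¹) (x / N)).card : ℝ) / (x / N) * (1 / N)) atTop
        (𝓝 (L * (∏ v ∈ P, (1 - 1 / ((Ideal.absNorm v.asIdeal : ℕ) : ℝ))) * (1 / N))) :=
      ((ih (C * (ClassGroup.mk0 B)⁻¹)).comp (tendsto_id.atTop_div_const (by linarith : 0 < N))).mul_const _
    have h4 := (ih C).sub h3
    rw [prod_insert hw]
    have h5 : L * (∏ v ∈ P, (1 - 1 / ((Ideal.absNorm v.asIdeal : ℕ) : ℝ))) -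
        L * (∏ v ∈ P, (1 - 1 / ((Ideal.absNorm v.asIdeal : ℕ) : ℝ))) * (1 / N) =
        L * ((1 - 1 / N) * ∏ v ∈ P, (1 - 1 / ((Ideal.absNorm v.asIdeal : ℕ) : ℝ))) := by ring
    rw [h5] at h4
    refine h4.congr' ?_
    filter_upwards [eventually_gt_atTop 0] with x hx
    rw [h2 x]
    have hN0 : N ≠ 0 := by linarith
    have hx0 : x ≠ 0 := hx.ne'
    rw [div_div_eq_mul_div]
    field_simp

lemma two_le_nm (v : HeightOneSpectrum (𝓞 F)) : (2 : ℝ) ≤ ((Ideal.absNorm v.asIdeal : ℕ) : ℝ) := by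
  have h1 : Ideal.absNorm v.asIdeal ≠ 0 := by
    rw [Ne, Ideal.absNorm_eq_zero_iff]
    exact v.ne_bot
  have h2 : Ideal.absNorm v.asIdeal ≠ 1 := by
    rw [Ne, Ideal.absNorm_eq_one_iff]
    exact v.isPrime.ne_top
  have : 2 ≤ Ideal.absNorm v.asIdeal := by omega
  exact_mod_cast this

/-- the primes which belong to a finite set of ideals -/
noncomputable def prs (S : Finset (Ideal (𝓞 F))) : Finset (HeightOneSpectrum (𝓞 F)) :=
  S.preimage HeightOneSpectrum.asIdeal (fun v _ w _ h => HeightOneSpectrum.ext h)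

lemma mem_prs {S : Finset (Ideal (𝓞 F))} {v : HeightOneSpectrum (𝓞 F)} : v ∈ prs S ↔ v.asIdeal ∈ S := by
  unfold prs
  rw [mem_preimage]

theorem count (F : Type) [Field F] [NumberField F] : ∃ (c : ℝ) (P0 : Finset (HeightOneSpectrum (𝓞 F))), 0 < c ∧
    ∀ P : Finset (HeightOneSpectrum (𝓞 F)), P0 ⊆ P → ∃ t0 : ℝ, 1 ≤ t0 ∧ ∀ t : ℝ, t0 ≤ t →
      c * (∏ v ∈ P, (1 - 1 / ((Ideal.absNorm v.asIdeal : ℕ) : ℝ))) * t ≤
        (((Qf F P 1 t).filter fun I => ∀ u : HeightOneSpectrum (𝓞 F), ¬ u.asIdeal ^ 2 ∣ I).card : ℝ) := by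
  obtain ⟨L, hL0, hL⟩ := exists_L F
  obtain ⟨S0, hS0⟩ := exists_small F (1 / 4) (by norm_num)
  obtain ⟨C, hC, hcnt⟩ := ids_le F
  refine ⟨L / 2, prs S0, by positivity, fun P hP => ?_⟩
  set p : ℝ := ∏ v ∈ P, (1 - 1 / ((Ideal.absNorm v.asIdeal : ℕ) : ℝ)) with hp
  have hp0 : 0 < p := by
    refine prod_pos fun v _ => ?_
    have h1 := two_le_nm v
    have h2 : 1 / ((Ideal.absNorm v.asIdeal : ℕ) : ℝ) ≤ 1 / 2 := one_div_le_one_div_of_le (by norm_num) h1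
    linarith
  obtain ⟨S1, hS1⟩ := exists_small F (L * p / (8 * C)) (by positivity)
  set U : Finset (HeightOneSpectrum (𝓞 F)) := (prs S1).filter fun u => u ∉ P with hU
  set B : HeightOneSpectrum (𝓞 F) → nonZeroDivisors (Ideal (𝓞 F)) := fun u =>
    ⟨u.asIdeal ^ 2, mem_nonZeroDivisors_of_ne_zero (pow_ne_zero 2 u.ne_bot)⟩ with hB
  have hBN : ∀ u : HeightOneSpectrum (𝓞 F), ((Ideal.absNorm (B u : Ideal (𝓞 F)) : ℕ) : ℝ) =
      ((Ideal.absNorm u.asIdeal : ℕ) : ℝ) ^ 2 := by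
    intro u
    show ((Ideal.absNorm (u.asIdeal ^ 2) : ℕ) : ℝ) = _
    rw [map_pow, Nat.cast_pow]
  -- the limit
  have hlim : Tendsto (fun x : ℝ => ((Qf F P 1 x).card : ℝ) / x -
      ∑ u ∈ U, ((Qf F P (1 * (ClassGroup.mk0 (B u))⁻¹) (x / ((Ideal.absNorm (B u : Ideal (𝓞 F)) : ℕ) : ℝ))).card : ℝ) /
        (x / ((Ideal.absNorm (B u : Ideal (𝓞 F)) : ℕ) : ℝ)) * (1 / ((Ideal.absNorm (B u : Ideal (𝓞 F)) : ℕ) : ℝ))) atTop
      (𝓝 (L * p - ∑ u ∈ U, L * p * (1 / ((Ideal.absNorm (B u : Ideal (𝓞 F)) : ℕ) : ℝ)))) := by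
    refine (tends hL P 1).sub (tendsto_finsetSum _ fun u _ => ?_)
    have hN : 0 < ((Ideal.absNorm (B u : Ideal (𝓞 F)) : ℕ) : ℝ) := by
      rw [hBN]
      have := two_le_nm u
      positivity
    exact ((tends hL P (1 * (ClassGroup.mk0 (B u))⁻¹)).comp (tendsto_id.atTop_div_const hN)).mul_const _
  have hsum : ∑ u ∈ U, L * p * (1 / ((Ideal.absNorm (B u : Ideal (𝓞 F)) : ℕ) : ℝ)) ≤ L * p * (1 / 4) := by
    rw [← mul_sum]
    refine mul_le_mul_of_nonneg_left ?_ (by positivity)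
    have h1 := hS0 (U.image fun u => u.asIdeal) (by
      intro I hI
      obtain ⟨u, hu, rfl⟩ := mem_image.1 hI
      refine ⟨u.ne_bot, fun h => ?_⟩
      exact (mem_filter.1 hu).2 (hP (mem_prs.2 h)))
    rw [sum_image (fun u _ w _ h => HeightOneSpectrum.ext h)] at h1
    refine le_trans (le_of_eq (sum_congr rfl fun u _ => ?_)) h1.le
    rw [hBN]
  have hlt : 5 / 8 * (L * p) < L * p - ∑ u ∈ U, L * p * (1 / ((Ideal.absNorm (B u : Ideal (𝓞 F)) : ℕ) : ℝ)) := by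
    have h1 : 0 < L * p := by positivity
    linarith
  obtain ⟨s0, hs0⟩ := (hlim.eventually (lt_mem_nhds hlt)).exists_forall_of_atTop
  refine ⟨max s0 1, le_max_right _ _, fun t ht => ?_⟩
  have ht1 : 1 ≤ t := (le_max_right _ _).trans ht
  have h1 := hs0 t ((le_max_left _ _).trans ht)
  have h2 : ∀ u ∈ U, ((Qf F P (1 * (ClassGroup.mk0 (B u))⁻¹) (t / ((Ideal.absNorm (B u : Ideal (𝓞 F)) : ℕ) : ℝ))).card : ℝ) /
        (t / ((Ideal.absNorm (B u : Ideal (𝓞 F)) : ℕ) : ℝ)) * (1 / ((Ideal.absNorm (B u : Ideal (𝓞 F)) : ℕ) : ℝ)) =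
      (((Qf F P 1 t).filter fun I => u.asIdeal ^ 2 ∣ I).card : ℝ) / t := by
    intro u hu
    have h3 := card_dvd P 1 t (B u) (fun v hv h => by
      have h4 : v.asIdeal ∣ u.asIdeal := v.prime.dvd_of_dvd_pow h
      refine not_dvd_of_ne ?_ h4
      rintro rfl
      exact (mem_filter.1 hu).2 hv)
    have h4 : ((Qf F P 1 t).filter fun I => u.asIdeal ^ 2 ∣ I).card =
        (Qf F P (1 * (ClassGroup.mk0 (B u))⁻¹) (t / ((Ideal.absNorm (B u : Ideal (𝓞 F)) : ℕ) : ℝ))).card := h3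
    rw [h4]
    have hN : 0 < ((Ideal.absNorm (B u : Ideal (𝓞 F)) : ℕ) : ℝ) := by
      rw [hBN]
      have := two_le_nm u
      positivity
    have hN0 := hN.ne'
    have ht0 : t ≠ 0 := by linarith
    rw [div_div_eq_mul_div]
    field_simp
  rw [sum_congr rfl h2, ← sum_div, ← sub_div, lt_div_iff₀ (by linarith)] at h1
  -- the complement
  have h3 : (Qf F P 1 t) ⊆ ((Qf F P 1 t).filter fun I => ∀ u : HeightOneSpectrum (𝓞 F), ¬ u.asIdeal ^ 2 ∣ I) ∪
      ((U.biUnion fun u => (Qf F P 1 t).filter fun I => u.asIdeal ^ 2 ∣ I) ∪ (ids F t).filter fun I => ¬ Good S1 I) := by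
    intro I hI
    rw [mem_union, mem_union]
    by_cases hsf : ∀ u : HeightOneSpectrum (𝓞 F), ¬ u.asIdeal ^ 2 ∣ I
    · exact Or.inl (mem_filter.2 ⟨hI, hsf⟩)
    · right
      push Not at hsf
      obtain ⟨u, hu⟩ := hsf
      have hI' := mem_Qf.1 hI
      by_cases huS : u.asIdeal ∈ S1
      · left
        rw [mem_biUnion]
        refine ⟨u, mem_filter.2 ⟨mem_prs.2 huS, fun h => ?_⟩, mem_filter.2 ⟨hI, hu⟩⟩
        exact hI'.2.2 u h ((dvd_pow_self _ two_ne_zero).trans hu)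
      · right
        rw [mem_filter, mem_ids]
        exact ⟨hI'.1, fun hg => huS (hg.2 _ hu)⟩
  have h4 := (card_le_card h3).trans ((card_union_le _ _).trans (Nat.add_le_add_left ((card_union_le _ _).trans
    (Nat.add_le_add_right card_biUnion_le _)) _))
  have h5 : ((Qf F P 1 t).card : ℝ) ≤
      (((Qf F P 1 t).filter fun I => ∀ u : HeightOneSpectrum (𝓞 F), ¬ u.asIdeal ^ 2 ∣ I).card : ℝ) +
      (∑ u ∈ U, (((Qf F P 1 t).filter fun I => u.asIdeal ^ 2 ∣ I).card : ℝ) +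
        (((ids F t).filter fun I => ¬ Good S1 I).card : ℝ)) := by exact_mod_cast h4
  have h6 := bad_le hC hcnt hS1 t ht1
  have h7 : C * (L * p / (8 * C)) * t = L * p / 8 * t := by
    field_simp
  rw [h7] at h6
  have h8 : 5 / 8 * (L * p) * t = L / 2 * p * t + L * p / 8 * t := by ring
  linarith

end Pool.Agent.Q211.ESB.Lw
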