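import Pool.Agent.Q161.ESB.Stm6
import Pool.Agent.Q237.ESN.DENS
import Pool.Agent.Q211.ESB.LowA

/-!
# Project ESB, job LOWA: many classes without small primes
-/

set_option autoImplicit false

namespace Pool.Agent.Q211.ESB.Lw

open NumberField Finset IsDedekindDomain Pool.Agent.Q161.ESB Pool.Agent.Q161.ESN Pool.Agent.Q237.ESN

open scoped Classical

section
variable {F : Type} [Field F] [NumberField F]

lemma eq_top_of_sqfree {I B E : Ideal (𝓞 F)} (hI : I ≠ ⊥)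
    (hs : ∀ u : HeightOneSpectrum (𝓞 F), ¬ u.asIdeal ^ 2 ∣ I) (h : I = E * B ^ 2) : B = ⊤ := by
  by_contra hB
  obtain ⟨M, hM, hBM⟩ := Ideal.exists_le_maximal B hB
  have hB0 : B ≠ ⊥ := by
    rintro rfl
    exact hI (by rw [h]; simp)
  have hM0 : M ≠ ⊥ := by
    rintro rfl
    exact hB0 (le_bot_iff.1 hBM)
  refine hs ⟨M, hM.isPrime, hM0⟩ ?_
  rw [h]
  exact (pow_dvd_pow_of_dvd (Ideal.dvd_iff_le.2 hBM) 2).trans (dvd_mul_left _ _)

end

/-- LOWA -/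
theorem lowa : Pool.Agent.Q161.ESB.S_LOWA := by
  intro F _ _
  obtain ⟨c, P0, hc, hcount⟩ := count F
  refine ⟨c, P0, hc, fun P hP => ?_⟩
  obtain ⟨t0, ht0, hcount⟩ := hcount P hP
  refine ⟨t0, ht0, fun t ht => ?_⟩
  have hct := hcount t ht
  set G := (Qf F P 1 t).filter fun I => ∀ u : HeightOneSpectrum (𝓞 F), ¬ u.asIdeal ^ 2 ∣ I with hG
  have hGm : ∀ I ∈ G, I ≠ ⊥ ∧ ((Ideal.absNorm I : ℕ) : ℝ) ≤ t ∧ Submodule.IsPrincipal I ∧
      (∀ v ∈ P, ¬ v.asIdeal ∣ I) ∧ ∀ u : HeightOneSpectrum (𝓞 F), ¬ u.asIdeal ^ 2 ∣ I := by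
    intro I hI
    obtain ⟨h1, h2⟩ := mem_filter.1 hI
    obtain ⟨h3, ⟨J, hJ, hC⟩, h4⟩ := mem_Qf.1 h1
    refine ⟨h3.1, h3.2, ?_, h4, h2⟩
    rw [← hJ]
    exact (ClassGroup.mk0_eq_one_iff J.2).1 hC
  have hgen : ∀ I : {I // I ∈ G}, ∃ α : 𝓞 F, α ≠ 0 ∧ I.1 = Ideal.span {α} := by
    intro I
    obtain ⟨h1, -, ⟨α, hα⟩, -⟩ := hGm I.1 I.2
    refine ⟨α, ?_, hα⟩
    rintro rfl
    apply h1
    rw [hα]
    simp
  choose α hα0 hα using hgen
  have hαF : ∀ I, (α I : F) ≠ 0 := fun I => by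
    rw [Ne, RingOfIntegers.coe_eq_zero_iff]
    exact hα0 I
  have hinj : ∀ I J : {I // I ∈ G}, IsSquare ((α I : F) * (α J : F)) → I = J := by
    intro I J hIJ
    obtain ⟨γ, hγ⟩ := hIJ
    have h5 : IsIntegral ℤ γ := by
      have h6 : IsIntegral ℤ (γ ^ 2) := by
        rw [pow_two, ← hγ]
        exact (RingOfIntegers.isIntegral_coe _).mul (RingOfIntegers.isIntegral_coe _)
      exact IsIntegral.of_pow two_pos h6
    obtain ⟨g, hg⟩ : ∃ g : 𝓞 F, (g : F) = γ := ⟨⟨γ, h5⟩, rfl⟩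
    have h7 : α I * α J = g * g := by
      apply RingOfIntegers.coe_injective
      rw [map_mul, map_mul]
      exact hγ.trans (by rw [← hg])
    have h8 : I.1 * J.1 = (Ideal.span {g}) ^ 2 := by
      rw [hα I, hα J, pow_two, Ideal.span_singleton_mul_span_singleton,
        Ideal.span_singleton_mul_span_singleton, h7]
    have hI := hGm I.1 I.2
    have hJ := hGm J.1 J.2
    obtain ⟨E, B, B', e1, e2⟩ := sq_split hI.1 hJ.1 h8
    have hB := eq_top_of_sqfree hI.1 hI.2.2.2.2 e1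
    have hB' := eq_top_of_sqfree hJ.1 hJ.2.2.2.2 e2
    apply Subtype.ext
    rw [e1, e2, hB, hB']
  refine ⟨Finset.univ.image fun I => (α I : F), ⟨?_, ?_, ?_⟩, ?_, ?_⟩
  · intro D hD
    obtain ⟨I, -, rfl⟩ := mem_image.1 hD
    exact hαF I
  · intro D hD
    obtain ⟨I, -, rfl⟩ := mem_image.1 hD
    have h1 := oddNorm_le (α I) (hα0 I)
    rw [← hα I] at h1
    have h2 : ((oddNorm ((α I : 𝓞 F) : F) : ℕ) : ℝ) ≤ ((Ideal.absNorm I.1 : ℕ) : ℝ) := by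
      exact_mod_cast h1
    exact h2.trans (hGm I.1 I.2).2.1
  · intro D hD D' hD' hne hsq
    obtain ⟨I, -, rfl⟩ := mem_image.1 hD
    obtain ⟨J, -, rfl⟩ := mem_image.1 hD'
    exact hne (by rw [hinj I J hsq])
  · intro D hD v hv hodd
    obtain ⟨I, -, rfl⟩ := mem_image.1 hD
    have h1 := oddAt_dvd hodd
    rw [← hα I] at h1
    exact (hGm I.1 I.2).2.2.2.1 v hv h1
  · refine hct.trans (le_of_eq ?_)
    rw [card_image_of_injective _ (fun I J hIJ => hinj I J ⟨(α J : F), by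
      have : (α I : F) = (α J : F) := hIJ
      rw [this]⟩), card_univ, Fintype.card_coe]

end Pool.Agent.Q211.ESB.Lw
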